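import Pool.Agent.Helper67.DF.Stmts
import Pool.Agent.Helper67.BT.Basic2

/-! df_mods LOC: the inequality for the exponent 11/5 (limit of INC). [helper65] -/

set_option autoImplicit false

open Finset MeasureTheory Filter
open scoped Topology

namespace Pool.Agent.Helper67.DF

namespace LOC65

open Pool.Agent.Helper67.BT (E PG Sp PG_rpow PG_inner PG_sum PG_const_mul PG_pow PG_add PG_abs
  PG_const pow_gauss_int)

variable {n k : ℕ}

/-- coercivity -/
theorem coer (a : Fin n → E k) (ha : Sp a) :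
    ∃ δ : ℝ, 0 < δ ∧ ∀ x : E k, δ * ‖x‖ ^ 2 ≤ ∑ l, (inner ℝ (a l) x) ^ 2 := by
  rcases isEmpty_or_nonempty (Metric.sphere (0 : E k) 1) with hS | hS
  · refine ⟨1, one_pos, fun x => ?_⟩
    have hx : x = 0 := by
      by_contra hx
      have h1 : ‖x‖ ≠ 0 := norm_ne_zero_iff.mpr hx
      refine hS.false ⟨(‖x‖)⁻¹ • x, ?_⟩
      rw [mem_sphere_zero_iff_norm, norm_smul, norm_inv, norm_norm, inv_mul_cancel₀ h1]
    subst hx
    simp
  · have hc : IsCompact (Metric.sphere (0 : E k) 1) := isCompact_sphere _ _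
    have hf : ContinuousOn (fun x : E k => ∑ l, (inner ℝ (a l) x) ^ 2)
        (Metric.sphere (0 : E k) 1) := by fun_prop
    obtain ⟨x0, hx0, hmin⟩ := hc.exists_isMinOn (Set.nonempty_coe_sort.mp hS) hf
    refine ⟨∑ l, (inner ℝ (a l) x0) ^ 2, ?_, fun x => ?_⟩
    · have h0 : 0 ≤ ∑ l, (inner ℝ (a l) x0) ^ 2 := Finset.sum_nonneg fun l _ => sq_nonneg _
      rcases h0.lt_or_eq with h | h
      · exact h
      · exfalso
        have h1 := (Finset.sum_eq_zero_iff_of_nonneg (fun l _ => sq_nonneg _)).mp h.symm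
        have h2 : x0 = 0 := ha x0 fun l =>
          (pow_eq_zero_iff two_ne_zero).mp (h1 l (Finset.mem_univ l))
        rw [h2, mem_sphere_zero_iff_norm, norm_zero] at hx0
        exact zero_ne_one hx0
    · by_cases hx : x = 0
      · subst hx
        simp
      · have h1 : ‖x‖ ≠ 0 := norm_ne_zero_iff.mpr hx
        have hs : (‖x‖)⁻¹ • x ∈ Metric.sphere (0 : E k) 1 := by
          rw [mem_sphere_zero_iff_norm, norm_smul, norm_inv, norm_norm, inv_mul_cancel₀ h1]
        have h2 : ∑ l, (inner ℝ (a l) x0) ^ 2 ≤ ∑ l, (inner ℝ (a l) ((‖x‖)⁻¹ • x)) ^ 2 :=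
          hmin hs
        have h3 : ∑ l, (inner ℝ (a l) ((‖x‖)⁻¹ • x)) ^ 2 =
            (‖x‖ ^ 2)⁻¹ * ∑ l, (inner ℝ (a l) x) ^ 2 := by
          rw [Finset.mul_sum]
          refine Finset.sum_congr rfl fun l _ => ?_
          rw [real_inner_smul_right, mul_pow, inv_pow]
        rw [h3] at h2
        have h4 : 0 < ‖x‖ ^ 2 := by positivity
        calc (∑ l, (inner ℝ (a l) x0) ^ 2) * ‖x‖ ^ 2
            ≤ ((‖x‖ ^ 2)⁻¹ * ∑ l, (inner ℝ (a l) x) ^ 2) * ‖x‖ ^ 2 :=
              mul_le_mul_of_nonneg_right h2 h4.le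
          _ = ∑ l, (inner ℝ (a l) x) ^ 2 := by field_simp

theorem rp (t : ℝ) : t ^ 2 - 1 ≤ |t| ^ (11 / 5 : ℝ) := by
  rcases le_total |t| 1 with h | h
  · have h1 : t ^ 2 ≤ 1 := by rw [← sq_abs]; exact pow_le_one₀ (abs_nonneg _) h
    have h2 : 0 ≤ |t| ^ (11 / 5 : ℝ) := Real.rpow_nonneg (abs_nonneg _) _
    linarith
  · have h1 : |t| ^ (2 : ℝ) ≤ |t| ^ (11 / 5 : ℝ) :=
      Real.rpow_le_rpow_of_exponent_le h (by norm_num)
    rw [Real.rpow_two, sq_abs] at h1
    linarith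

theorem int0 (a : Fin n → E k) (ha : Sp a) {G : E k → ℝ} (hG : PG G) :
    Integrable fun x => G x * Real.exp (-∑ l, |inner ℝ (a l) x| ^ (11 / 5 : ℝ)) := by
  obtain ⟨δ, hδ, h⟩ := coer a ha
  obtain ⟨h1, C, N, hC, h2⟩ := hG
  refine Integrable.mono' ((pow_gauss_int (k := k) N hδ).const_mul (C * Real.exp n)) ?_
    (Filter.Eventually.of_forall fun x => ?_)
  · refine Continuous.aestronglyMeasurable (h1.mul (Real.continuous_exp.comp ?_))
    refine (continuous_finsetSum _ fun l _ => ?_).neg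
    exact (by fun_prop : Continuous fun x : E k => |inner ℝ (a l) x|).rpow_const
      fun _ => Or.inr (by norm_num)
  · rw [Real.norm_eq_abs, abs_mul, abs_of_pos (Real.exp_pos _)]
    have h3 : -∑ l, |inner ℝ (a l) x| ^ (11 / 5 : ℝ) ≤ n + -δ * ‖x‖ ^ 2 := by
      have h4 : ∑ l, ((inner ℝ (a l) x) ^ 2 - 1) ≤ ∑ l, |inner ℝ (a l) x| ^ (11 / 5 : ℝ) :=
        Finset.sum_le_sum fun l _ => rp _
      rw [Finset.sum_sub_distrib, Finset.sum_const, Finset.card_univ, Fintype.card_fin,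
        nsmul_eq_mul, mul_one] at h4
      have := h x
      linarith
    calc |G x| * Real.exp (-∑ l, |inner ℝ (a l) x| ^ (11 / 5 : ℝ))
        ≤ (C * (1 + ‖x‖) ^ N) * Real.exp (n + -δ * ‖x‖ ^ 2) :=
          mul_le_mul (h2 x) (Real.exp_le_exp.mpr h3) (Real.exp_pos _).le (by positivity)
      _ = _ := by rw [Real.exp_add]; ring

theorem lim (a : Fin n → E k) (ha : Sp a) (F : ℝ → E k → ℝ) (G : E k → ℝ) (hG : PG G)
    (hF : ∀ c, Continuous (F c)) (hb : ∀ c, 0 < c → c ≤ 1 → ∀ x, |F c x| ≤ G x)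
    (hc : ∀ x, Continuous fun c => F c x) :
    Tendsto (fun c => J a (cf (Uc c)) (F c)) (𝓝[>] 0)
      (𝓝 (∫ x, F 0 x * Real.exp (-∑ l, |inner ℝ (a l) x| ^ (11 / 5 : ℝ)))) := by
  unfold J
  have hV : ∀ c x, VV a (cf (Uc c)) x =
      (∑ l, |inner ℝ (a l) x| ^ (11 / 5 : ℝ)) + c * ∑ l, (inner ℝ (a l) x) ^ 2 := by
    intro c x
    unfold VV cf Uc
    rw [Finset.sum_add_distrib, Finset.mul_sum]
  have hcont : Continuous fun x : E k => ∑ l, |inner ℝ (a l) x| ^ (11 / 5 : ℝ) := by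
    refine continuous_finsetSum _ fun l _ => ?_
    exact (by fun_prop : Continuous fun x : E k => |inner ℝ (a l) x|).rpow_const
      fun _ => Or.inr (by norm_num)
  refine tendsto_integral_filter_of_dominated_convergence
    (fun x => G x * Real.exp (-∑ l, |inner ℝ (a l) x| ^ (11 / 5 : ℝ))) ?_ ?_ (int0 a ha hG) ?_
  · refine Filter.Eventually.of_forall fun c => Continuous.aestronglyMeasurable ?_
    refine (hF c).mul (Real.continuous_exp.comp ?_)
    simp only [hV]
    refine (hcont.add (continuous_const.mul ?_)).neg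
    fun_prop
  · have h1 : ∀ᶠ c : ℝ in 𝓝[>] 0, c ∈ Set.Ioc (0 : ℝ) 1 :=
      Ioc_mem_nhdsGT one_pos
    filter_upwards [h1] with c hc
    refine Filter.Eventually.of_forall fun x => ?_
    rw [Real.norm_eq_abs, abs_mul, abs_of_pos (Real.exp_pos _), hV]
    refine mul_le_mul (hb c hc.1 hc.2 x) (Real.exp_le_exp.mpr ?_) (Real.exp_pos _).le
      ((abs_nonneg _).trans (hb c hc.1 hc.2 x))
    have : 0 ≤ c * ∑ l, (inner ℝ (a l) x) ^ 2 :=
      mul_nonneg hc.1.le (Finset.sum_nonneg fun l _ => sq_nonneg _)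
    linarith
  · refine Filter.Eventually.of_forall fun x => ?_
    have h1 : Continuous fun c : ℝ => F c x * Real.exp (-(VV a (cf (Uc c)) x)) := by
      refine (hc x).mul (Real.continuous_exp.comp ?_)
      simp only [hV]
      fun_prop
    have h2 := (h1.tendsto 0).mono_left (nhdsWithin_le_nhds (s := Set.Ioi (0 : ℝ)))
    simpa only [hV, zero_mul, add_zero] using h2

theorem rpm (t : ℝ) : t * (11 / 5 * (|t| ^ (1 / 5 : ℝ) * t)) = 11 / 5 * |t| ^ (11 / 5 : ℝ) := by
  have h1 : |t| ^ (11 / 5 : ℝ) = |t| ^ (1 / 5 : ℝ) * t ^ 2 := by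
    rw [show (11 / 5 : ℝ) = 1 / 5 + 2 by norm_num,
      Real.rpow_add_of_nonneg (abs_nonneg _) (by norm_num) (by norm_num), Real.rpow_two, sq_abs]
  rw [h1]
  ring

theorem rpw (t : ℝ) : t ^ 2 * (66 / 25 * |t| ^ (1 / 5 : ℝ)) = 66 / 25 * |t| ^ (11 / 5 : ℝ) := by
  have h1 : |t| ^ (11 / 5 : ℝ) = |t| ^ (1 / 5 : ℝ) * t ^ 2 := by
    rw [show (11 / 5 : ℝ) = 1 / 5 + 2 by norm_num,
      Real.rpow_add_of_nonneg (abs_nonneg _) (by norm_num) (by norm_num), Real.rpow_two, sq_abs]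
  rw [h1]
  ring

end LOC65

open LOC65
open Pool.Agent.Helper67.BT (E PG Sp PG_rpow PG_inner PG_sum PG_const_mul PG_pow PG_add PG_abs
  PG_const)

theorem st_LOC (hI : ST_INC) : ST_LOC := by
  intro n k a v ha
  -- the functions
  set g : E k → ℝ := fun x => ∑ l, v l * |inner ℝ (a l) x| ^ (11 / 5 : ℝ) with hg
  set q : E k → ℝ := fun x => ∑ l, v l * (inner ℝ (a l) x) ^ 2 with hq
  set g2 : E k → ℝ := fun x => ∑ l, v l ^ 2 * |inner ℝ (a l) x| ^ (11 / 5 : ℝ) with hg2
  set q2 : E k → ℝ := fun x => ∑ l, v l ^ 2 * (inner ℝ (a l) x) ^ 2 with hq2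
  have PGr : ∀ l, PG fun x : E k => |inner ℝ (a l) x| ^ (11 / 5 : ℝ) := fun l =>
    PG_rpow (PG_inner (a l)) (by norm_num)
  have PGs : ∀ l, PG fun x : E k => (inner ℝ (a l) x) ^ 2 := fun l => PG_pow (PG_inner (a l)) 2
  have Pg : PG g := PG_sum _ fun l _ => PG_const_mul _ (PGr l)
  have Pq : PG q := PG_sum _ fun l _ => PG_const_mul _ (PGs l)
  have Pg2 : PG g2 := PG_sum _ fun l _ => PG_const_mul _ (PGr l)
  have Pq2 : PG q2 := PG_sum _ fun l _ => PG_const_mul _ (PGs l)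
  have eh : ∀ c x, ∑ l, v l * (inner ℝ (a l) x * Pc c (inner ℝ (a l) x)) =
      11 / 5 * g x + 2 * c * q x := by
    intro c x
    rw [hg, hq, Finset.mul_sum, Finset.mul_sum, ← Finset.sum_add_distrib]
    refine Finset.sum_congr rfl fun l _ => ?_
    unfold Pc
    linear_combination v l * rpm (inner ℝ (a l) x)
  have eS : ∀ c x, ∑ l, v l ^ 2 * (inner ℝ (a l) x * Pc c (inner ℝ (a l) x) +
      inner ℝ (a l) x ^ 2 * Wc c (inner ℝ (a l) x)) =
      121 / 25 * g2 x + 4 * c * q2 x := by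
    intro c x
    rw [hg2, hq2, Finset.mul_sum, Finset.mul_sum, ← Finset.sum_add_distrib]
    refine Finset.sum_congr rfl fun l _ => ?_
    unfold Pc Wc
    linear_combination v l ^ 2 * rpm (inner ℝ (a l) x) + v l ^ 2 * rpw (inner ℝ (a l) x)
  -- the limits
  have L1 := lim a ha (fun _ _ => 1) (fun _ => 1) (PG_const 1) (fun _ => continuous_const)
    (fun _ _ _ _ => by simp) (fun _ => continuous_const)
  have bd1 : ∀ c : ℝ, 0 < c → c ≤ 1 → ∀ x, |11 / 5 * g x + 2 * c * q x| ≤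
      11 / 5 * |g x| + 2 * |q x| := by
    intro c h0 h1 x
    refine (abs_add_le _ _).trans ?_
    rw [abs_mul, abs_mul, abs_mul, abs_of_pos h0, abs_of_pos (by norm_num : (0 : ℝ) < 11 / 5),
      abs_of_pos (by norm_num : (0 : ℝ) < 2)]
    have := mul_le_mul_of_nonneg_right h1 (abs_nonneg (q x))
    linarith
  have Pb : PG fun x => 11 / 5 * |g x| + 2 * |q x| :=
    PG_add (PG_const_mul _ (PG_abs Pg)) (PG_const_mul _ (PG_abs Pq))
  have L2 := lim a ha (fun c x => 11 / 5 * g x + 2 * c * q x) _ Pb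
    (fun c => by
      have := Pg.1
      have := Pq.1
      fun_prop) bd1 (fun x => by fun_prop)
  have L3 := lim a ha (fun c x => (11 / 5 * g x + 2 * c * q x) ^ 2) _ (PG_pow Pb 2)
    (fun c => by
      have := Pg.1
      have := Pq.1
      fun_prop) (fun c h0 h1 x => by
        rw [abs_pow]
        exact pow_le_pow_left₀ (abs_nonneg _) (bd1 c h0 h1 x) 2) (fun x => by fun_prop)
  have L4 := lim a ha (fun c x => 121 / 25 * g2 x + 4 * c * q2 x)
    (fun x => 121 / 25 * |g2 x| + 4 * |q2 x|)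
    (PG_add (PG_const_mul _ (PG_abs Pg2)) (PG_const_mul _ (PG_abs Pq2)))
    (fun c => by
      have := Pg2.1
      have := Pq2.1
      fun_prop) (fun c h0 h1 x => by
        refine (abs_add_le _ _).trans ?_
        rw [abs_mul, abs_mul, abs_mul, abs_of_pos h0,
          abs_of_pos (by norm_num : (0 : ℝ) < 121 / 25), abs_of_pos (by norm_num : (0 : ℝ) < 4)]
        have := mul_le_mul_of_nonneg_right h1 (abs_nonneg (q2 x))
        linarith) (fun x => by fun_prop)
  -- the inequality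
  have hpos : ∀ c : ℝ, 0 < c → 0 < J a (cf (Uc c)) fun _ => 1 := by
    intro c hc
    unfold J
    have hV : ∀ x, VV a (cf (Uc c)) x =
        (∑ l, |inner ℝ (a l) x| ^ (11 / 5 : ℝ)) + c * ∑ l, (inner ℝ (a l) x) ^ 2 := by
      intro x
      unfold VV cf Uc
      rw [Finset.sum_add_distrib, Finset.mul_sum]
    simp only [one_mul]
    refine integral_exp_pos ?_
    have hI := int0 a ha (PG_const (k := k) 1)
    simp only [one_mul] at hI
    refine Integrable.mono' hI ?_ (Filter.Eventually.of_forall fun x => ?_)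
    · refine Continuous.aestronglyMeasurable (Real.continuous_exp.comp ?_)
      simp only [hV]
      refine (Continuous.add (continuous_finsetSum _ fun l _ => ?_)
        (continuous_const.mul (by fun_prop))).neg
      exact (by fun_prop : Continuous fun x : E k => |inner ℝ (a l) x|).rpow_const
        fun _ => Or.inr (by norm_num)
    · rw [Real.norm_of_nonneg (Real.exp_pos _).le, hV]
      refine Real.exp_le_exp.mpr ?_
      have : 0 ≤ c * ∑ l, (inner ℝ (a l) x) ^ 2 :=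
        mul_nonneg hc.le (Finset.sum_nonneg fun l _ => sq_nonneg _)
      linarith
  have key : ∀ c : ℝ, 0 < c →
      (J a (cf (Uc c)) fun x => (11 / 5 * g x + 2 * c * q x) ^ 2) *
        (J a (cf (Uc c)) fun _ => 1) -
      (J a (cf (Uc c)) fun x => 11 / 5 * g x + 2 * c * q x) ^ 2 ≤
      (J a (cf (Uc c)) fun x => 121 / 25 * g2 x + 4 * c * q2 x) *
        (J a (cf (Uc c)) fun _ => 1) := by
    intro c hc
    have h1 := hI n k a c v ha hc
    simp only [eh, eS] at h1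
    unfold Av at h1
    have hp := hpos c hc
    set Z := J a (cf (Uc c)) fun _ => 1
    set A := J a (cf (Uc c)) fun x => (11 / 5 * g x + 2 * c * q x) ^ 2
    set B := J a (cf (Uc c)) fun x => 11 / 5 * g x + 2 * c * q x
    set C := J a (cf (Uc c)) fun x => 121 / 25 * g2 x + 4 * c * q2 x
    have h2 := mul_le_mul_of_nonneg_right h1 (by positivity : 0 ≤ Z ^ 2)
    have h3 : (A / Z - (B / Z) ^ 2) * Z ^ 2 = A * Z - B ^ 2 := by field_simp
    have h4 : C / Z * Z ^ 2 = C * Z := by field_simp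
    rw [h3, h4] at h2
    exact h2
  have hlim := le_of_tendsto_of_tendsto ((L3.mul L1).sub (L2.pow 2)) (L4.mul L1)
    (by
      filter_upwards [self_mem_nhdsWithin] with c hc
      exact key c hc)
  simp only [mul_zero, zero_mul, add_zero, one_mul] at hlim
  have e3 : ∫ x, (11 / 5 * g x) ^ 2 * Real.exp (-∑ l, |inner ℝ (a l) x| ^ (11 / 5 : ℝ)) =
      121 / 25 * ∫ x, g x ^ 2 * Real.exp (-∑ l, |inner ℝ (a l) x| ^ (11 / 5 : ℝ)) := by
    rw [← integral_const_mul]
    congr 1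
    funext x
    ring
  have e2 : ∫ x, 11 / 5 * g x * Real.exp (-∑ l, |inner ℝ (a l) x| ^ (11 / 5 : ℝ)) =
      11 / 5 * ∫ x, g x * Real.exp (-∑ l, |inner ℝ (a l) x| ^ (11 / 5 : ℝ)) := by
    rw [← integral_const_mul]
    congr 1
    funext x
    ring
  have e4 : ∫ x, 121 / 25 * g2 x * Real.exp (-∑ l, |inner ℝ (a l) x| ^ (11 / 5 : ℝ)) =
      121 / 25 * ∫ x, g2 x * Real.exp (-∑ l, |inner ℝ (a l) x| ^ (11 / 5 : ℝ)) := by
    rw [← integral_const_mul]
    congr 1
    funext x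
    ring
  rw [e2, e3, e4] at hlim
  rw [hg, hg2] at hlim
  nlinarith [hlim]

end Pool.Agent.Helper67.DF
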